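import Pool.Agent.Helper50.BL.Stmts
import Pool.Agent.Helper50.BL.Base

/-! Module ITS: the labels at one point. -/

set_option autoImplicit false

namespace Pool.Agent.Helper50.BL

open Finset
open scoped Classical

theorem its_ico (K : ℕ) : ∑ k ∈ Finset.Ico 1 (K + 1), 1 / (1 + (k : ℝ)) ^ 2 ≤
    1 - 1 / ((K : ℝ) + 1) := by
  induction K with
  | zero => simp
  | succ K ih =>
    rw [Finset.sum_Ico_succ_top (by omega)]
    push_cast
    have h1 : (0 : ℝ) < (K : ℝ) + 1 := by positivity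
    have h2 : (0 : ℝ) < 1 + ((K : ℝ) + 1) := by positivity
    have h3 : 1 / (1 + ((K : ℝ) + 1)) ^ 2 ≤ 1 / ((K : ℝ) + 1) - 1 / ((K : ℝ) + 1 + 1) := by
      rw [div_sub_div _ _ h1.ne' (by positivity), div_le_div_iff₀ (by positivity) (by positivity)]
      nlinarith
    linarith

theorem its_nat (M : Finset ℕ) (hM : ∀ k ∈ M, k ≠ 0) : ∑ k ∈ M, 1 / (1 + (k : ℝ)) ^ 2 ≤ 1 := by
  have h1 : M ⊆ Finset.Ico 1 (M.sup id + 1) := by
    intro k hk
    rw [Finset.mem_Ico]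
    have h2 : k ≤ M.sup id := Finset.le_sup (f := id) hk
    have h3 := hM k hk
    omega
  have h4 : ∑ k ∈ M, 1 / (1 + (k : ℝ)) ^ 2 ≤
      ∑ k ∈ Finset.Ico 1 (M.sup id + 1), 1 / (1 + (k : ℝ)) ^ 2 :=
    Finset.sum_le_sum_of_subset_of_nonneg h1 (fun k _ _ => by positivity)
  have h5 := its_ico (M.sup id)
  have h6 : 0 ≤ 1 / (((M.sup id : ℕ) : ℝ) + 1) := by positivity
  linarith

theorem its_half (N : Finset ℤ) (hN : ∀ n ∈ N, n ≠ 0)
    (hinj : ∀ n ∈ N, ∀ m ∈ N, n.natAbs = m.natAbs → n = m) :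
    ∑ n ∈ N, 1 / (1 + |(n : ℝ)|) ^ 2 ≤ 1 := by
  have h1 : ∑ n ∈ N, 1 / (1 + |(n : ℝ)|) ^ 2 =
      ∑ k ∈ N.image Int.natAbs, 1 / (1 + (k : ℝ)) ^ 2 := by
    rw [Finset.sum_image (fun n hn m hm h => hinj n hn m hm h)]
    apply Finset.sum_congr rfl
    intro n _
    rw [Nat.cast_natAbs, Int.cast_abs]
  rw [h1]
  apply its_nat
  intro k hk
  rw [Finset.mem_image] at hk
  obtain ⟨n, hn, rfl⟩ := hk
  have := hN n hn
  omega

theorem its_int (N : Finset ℤ) (hN : ∀ n ∈ N, n ≠ 0) :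
    ∑ n ∈ N, 1 / (1 + |(n : ℝ)|) ^ 2 ≤ 2 := by
  rw [← Finset.sum_filter_add_sum_filter_not N (fun n => 0 < n)]
  have h1 := its_half (N.filter (fun n => 0 < n))
    (fun n hn => hN n (Finset.mem_filter.1 hn).1) (fun n hn m hm h => by
      have h2 := (Finset.mem_filter.1 hn).2
      have h3 := (Finset.mem_filter.1 hm).2
      omega)
  have h4 := its_half (N.filter (fun n => ¬ 0 < n))
    (fun n hn => hN n (Finset.mem_filter.1 hn).1) (fun n hn m hm h => by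
      have h2 := (Finset.mem_filter.1 hn).2
      have h3 := (Finset.mem_filter.1 hm).2
      omega)
  linarith

theorem st_ITS : ST_ITS := by
  intro V J _ _ _ _ S I t D κ β hS hD hβ hβD x F
  obtain ⟨A, hA⟩ : ∃ A : Finset J, A = univ.filter (fun j => x ∈ S j) := ⟨_, rfl⟩
  obtain ⟨N, hN⟩ : ∃ N : Finset ℤ, N = (F.image Prod.snd).filter (fun n => n ≠ 0) := ⟨_, rfl⟩
  have hAt : (#A : ℝ) ≤ t := by
    rw [hA]
    exact_mod_cast hS x
  have hmem : ∀ p ∈ F.filter (fun p => x ∈ (if p.1 ∈ I ∧ p.2 ≠ 0 then S p.1 else ∅)),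
      p.1 ∈ I ∧ p.2 ≠ 0 ∧ x ∈ S p.1 ∧ p ∈ F := by
    intro p hp
    rw [Finset.mem_filter] at hp
    obtain ⟨h1, h2⟩ := hp
    by_cases h3 : p.1 ∈ I ∧ p.2 ≠ 0
    · rw [if_pos h3] at h2
      exact ⟨h3.1, h3.2, h2, h1⟩
    · rw [if_neg h3] at h2
      exact absurd h2 (Finset.notMem_empty _)
  have h1 : ∀ p ∈ F.filter (fun p => x ∈ (if p.1 ∈ I ∧ p.2 ≠ 0 then S p.1 else ∅)),
      Real.exp (-(cst κ p.2) + β * (#(if p.1 ∈ I ∧ p.2 ≠ 0 then S p.1 else ∅) : ℝ)) ≤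
        3 * Real.exp (-κ) * (1 / (1 + |(p.2 : ℝ)|) ^ 2) := by
    intro p hp
    obtain ⟨h2, h3, h4, h5⟩ := hmem p hp
    rw [if_pos ⟨h2, h3⟩]
    have h6 : β * (#(S p.1) : ℝ) ≤ 1 := (mul_le_mul_of_nonneg_left (hD _ h2) hβ).trans hβD
    have h7 : cst κ p.2 = κ + 2 * Real.log (1 + |(p.2 : ℝ)|) := by
      unfold cst
      rw [if_neg h3]
    have h8 : (0 : ℝ) < 1 + |(p.2 : ℝ)| := by positivity
    have h9 : Real.exp (-(cst κ p.2)) = Real.exp (-κ) * (1 / (1 + |(p.2 : ℝ)|) ^ 2) := by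
      rw [h7, neg_add, Real.exp_add]
      congr 1
      rw [Real.exp_neg, one_div]
      congr 1
      have h10 : 2 * Real.log (1 + |(p.2 : ℝ)|) = Real.log ((1 + |(p.2 : ℝ)|) ^ 2) := by
        rw [Real.log_pow]
        norm_num
      rw [h10, Real.exp_log (by positivity)]
    rw [Real.exp_add, h9]
    have h11 : Real.exp (β * (#(S p.1) : ℝ)) ≤ 3 :=
      (Real.exp_le_exp.2 h6).trans (Real.exp_one_lt_d9.le.trans (by norm_num))
    have h12 : 0 ≤ Real.exp (-κ) * (1 / (1 + |(p.2 : ℝ)|) ^ 2) := by positivity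
    nlinarith
  refine (Finset.sum_le_sum h1).trans ?_
  have hsub : F.filter (fun p => x ∈ (if p.1 ∈ I ∧ p.2 ≠ 0 then S p.1 else ∅)) ⊆ A ×ˢ N := by
    intro p hp
    obtain ⟨h2, h3, h4, h5⟩ := hmem p hp
    rw [Finset.mem_product, hA, hN, Finset.mem_filter, Finset.mem_filter]
    exact ⟨⟨Finset.mem_univ _, h4⟩, Finset.mem_image_of_mem _ h5, h3⟩
  refine (Finset.sum_le_sum_of_subset_of_nonneg hsub (fun p _ _ => by positivity)).trans ?_
  rw [Finset.sum_product]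
  have h2 := its_int N (fun n hn => by
    rw [hN] at hn
    exact (Finset.mem_filter.1 hn).2)
  have h3 : ∀ j ∈ A, ∑ n ∈ N, 3 * Real.exp (-κ) * (1 / (1 + |(n : ℝ)|) ^ 2) ≤
      6 * Real.exp (-κ) := by
    intro j _
    rw [← Finset.mul_sum]
    have h4 : 0 < Real.exp (-κ) := Real.exp_pos _
    nlinarith
  refine (Finset.sum_le_sum h3).trans ?_
  rw [Finset.sum_const, nsmul_eq_mul]
  have h4 : 0 < Real.exp (-κ) := Real.exp_pos _
  nlinarith

end Pool.Agent.Helper50.BL
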